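import Mathlib

set_option autoImplicit false

namespace Pool.Agent.TH727.MT

open Finset

variable {k : Type} [CommRing k]

/-- the augmentation -/
noncomputable def aug (k : Type) [CommRing k] (G : Type) [CommGroup G] : MonoidAlgebra k G →+* k :=
  (MonoidAlgebra.lift k k G (1 : G →* k)).toRingHom

/-- the augmentation ideal -/
noncomputable def augI (k : Type) [CommRing k] (G : Type) [CommGroup G] : Ideal (MonoidAlgebra k G) :=
  RingHom.ker (aug k G)

/-- the map of group rings induced by a homomorphism -/
noncomputable def mp {G H : Type} [CommGroup G] [CommGroup H] (f : G →* H) :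
    MonoidAlgebra k G →+* MonoidAlgebra k H := MonoidAlgebra.mapDomainRingHom k f

lemma aug_single {G : Type} [CommGroup G] (g : G) (a : k) :
    aug k G (MonoidAlgebra.single g a) = a := by
  simp [aug]

lemma mp_single {G H : Type} [CommGroup G] [CommGroup H] (f : G →* H) (g : G) (a : k) :
    mp f (MonoidAlgebra.single g a) = MonoidAlgebra.single (f g) a := by
  simp [mp]

lemma mp_comp {G H K : Type} [CommGroup G] [CommGroup H] [CommGroup K] (f : G →* H) (f' : H →* K)
    (x : MonoidAlgebra k G) : mp f' (mp f x) = mp (f'.comp f) x := by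
  induction x using MonoidAlgebra.induction_linear with
  | zero => simp
  | add x y hx hy => rw [map_add, map_add, map_add, hx, hy]
  | single g a => rw [mp_single, mp_single, mp_single]; rfl

lemma aug_mp {G H : Type} [CommGroup G] [CommGroup H] (f : G →* H)
    (x : MonoidAlgebra k G) : aug k H (mp f x) = aug k G x := by
  induction x using MonoidAlgebra.induction_linear with
  | zero => simp
  | add x y hx hy => rw [map_add, map_add, map_add, hx, hy]
  | single g a => rw [mp_single, aug_single, aug_single]

lemma mp_id {G : Type} [CommGroup G] (x : MonoidAlgebra k G) : mp (MonoidHom.id G) x = x := by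
  induction x using MonoidAlgebra.induction_linear with
  | zero => simp
  | add x y hx hy => rw [map_add, hx, hy]
  | single g a => rw [mp_single]; rfl

lemma mp_pow {G H : Type} [CommGroup G] [CommGroup H] (f : G →* H) (n : ℕ)
    {x : MonoidAlgebra k G} (hx : x ∈ augI k G ^ n) : mp f x ∈ augI k H ^ n := by
  have h : augI k G ≤ (augI k H).comap (mp f) := by
    intro y hy
    show aug k H (mp f y) = 0
    rw [aug_mp]; exact hy
  have h2 : augI k G ^ n ≤ (augI k H ^ n).comap (mp f) :=
    (Ideal.pow_right_mono h n).trans (Ideal.le_comap_pow (mp f) n)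
  exact h2 hx

lemma prod_mem_pow {R J : Type} [CommRing R] (I : Ideal R) (s : Finset J) (f : J → R)
    (h : ∀ j ∈ s, f j ∈ I) : ∏ j ∈ s, f j ∈ I ^ s.card := by
  classical
  induction s using Finset.induction_on with
  | empty => simp
  | insert a s ha ih =>
    rw [Finset.prod_insert ha, Finset.card_insert_of_notMem ha, pow_succ, mul_comm (f a)]
    exact Ideal.mul_mem_mul (ih fun j hj => h j (Finset.mem_insert_of_mem hj))
      (h a (Finset.mem_insert_self a s))

lemma det_mem_pow {R : Type} [CommRing R] (I : Ideal R) {r : ℕ} (M : Matrix (Fin r) (Fin r) R)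
    (h : ∀ a b, M a b ∈ I) : M.det ∈ I ^ r := by
  rw [Matrix.det_apply]
  refine sum_mem fun σ _ => ?_
  have h2 : ∏ a : Fin r, M (σ a) a ∈ I ^ r := by
    have := prod_mem_pow I (univ : Finset (Fin r)) (fun a => M (σ a) a) (fun a _ => h _ _)
    rwa [Finset.card_univ, Fintype.card_fin] at this
  rcases Int.units_eq_one_or (Equiv.Perm.sign σ) with h1 | h1
  · rw [h1, one_smul]; exact h2
  · rw [h1, Units.neg_smul, one_smul]; exact neg_mem h2

lemma unit_cancel {R : Type} [CommRing R] (I : Ideal R) {U v x : R} (hv : IsUnit v) (hU : U - v ∈ I)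
    (n : ℕ) (hx : U * x ∈ I ^ n) : x ∈ I ^ n := by
  have h : ∀ j, j ≤ n → x ∈ I ^ j := by
    intro j
    induction j with
    | zero => intro _; simp
    | succ j ih =>
      intro hj
      have h1 := ih (by omega)
      have h2 : v * x ∈ I ^ (j + 1) := by
        have e : v * x = U * x - x * (U - v) := by ring
        rw [e]
        refine sub_mem (Ideal.pow_le_pow_right hj hx) ?_
        rw [pow_succ]
        exact Ideal.mul_mem_mul h1 hU
      exact (Ideal.unit_mul_mem_iff_mem _ hv).1 h2
  exact h n le_rfl

/-- a group element minus one -/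
lemma sub_one_mem {G : Type} [CommGroup G] (g : G) :
    (MonoidAlgebra.single g 1 - 1 : MonoidAlgebra k G) ∈ augI k G := by
  show aug k G _ = 0
  rw [map_sub, aug_single, map_one, sub_self]

/-- the involution `g ↦ g⁻¹` -/
noncomputable def iota (k : Type) [CommRing k] (G : Type) [CommGroup G] :
    MonoidAlgebra k G →+* MonoidAlgebra k G := mp (invMonoidHom : G →* G)

lemma iota_add {G : Type} [CommGroup G] (y : MonoidAlgebra k G) :
    iota k G y + y - algebraMap k _ (2 * aug k G y) ∈ augI k G ^ 2 := by
  induction y using MonoidAlgebra.induction_linear with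
  | zero => simp
  | add x y hx hy =>
    have := add_mem hx hy
    convert this using 1
    rw [map_add, map_add, mul_add, map_add]
    ring
  | single g a =>
    have e : iota k G (MonoidAlgebra.single g a) + MonoidAlgebra.single g a -
        algebraMap k _ (2 * aug k G (MonoidAlgebra.single g a)) =
        algebraMap k _ (-a) * ((MonoidAlgebra.single g 1 - 1) * (MonoidAlgebra.single g⁻¹ 1 - 1)) := by
      have e1 : (MonoidAlgebra.single g 1 : MonoidAlgebra k G) * MonoidAlgebra.single g⁻¹ 1 = 1 := by
        rw [MonoidAlgebra.single_mul_single, mul_inv_cancel, mul_one]; rfl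
      have e2 : iota k G (MonoidAlgebra.single g a) =
          algebraMap k _ a * MonoidAlgebra.single g⁻¹ 1 := by
        show mp invMonoidHom (MonoidAlgebra.single g a) = _
        rw [mp_single]; simp
      have e3 : (MonoidAlgebra.single g a : MonoidAlgebra k G) =
          algebraMap k _ a * MonoidAlgebra.single g 1 := by simp
      rw [e2, aug_single, e3, map_mul, map_neg]
      have e4 : (algebraMap k (MonoidAlgebra k G)) 2 = 2 := map_ofNat _ 2
      rw [e4]
      linear_combination (algebraMap k (MonoidAlgebra k G) a) * e1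
    rw [e, pow_two]
    exact Ideal.mul_mem_left _ _ (Ideal.mul_mem_mul (sub_one_mem _) (sub_one_mem _))

lemma iota_mem {G : Type} [CommGroup G] (n : ℕ) : ∀ x ∈ augI k G ^ n,
    iota k G x - (-1) ^ n * x ∈ augI k G ^ (n + 1) := by
  induction n with
  | zero =>
    intro x _
    rw [zero_add, pow_one, pow_zero, one_mul]
    show aug k G _ = 0
    rw [map_sub]
    show aug k G (mp _ x) - _ = 0
    rw [aug_mp, sub_self]
  | succ n ih =>
    intro x hx
    rw [pow_succ] at hx
    refine Submodule.mul_induction_on hx ?_ ?_
    · intro a ha b hb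
      have h1 := ih a ha
      have hb0 : aug k G b = 0 := hb
      have h2 := iota_add b
      rw [hb0, mul_zero, map_zero, sub_zero] at h2
      have e : iota k G (a * b) - (-1) ^ (n + 1) * (a * b) =
          (iota k G a - (-1) ^ n * a) * (iota k G b + b) +
          (-1) ^ n * (a * (iota k G b + b)) - (iota k G a - (-1) ^ n * a) * b := by
        rw [map_mul]; ring
      rw [e]
      have hbb : iota k G b + b ∈ augI k G := by
        have := Ideal.pow_le_pow_right (I := augI k G) (by norm_num : 1 ≤ 2) h2
        rwa [pow_one] at this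
      refine sub_mem (add_mem ?_ (Ideal.mul_mem_left _ _ ?_)) ?_
      · rw [pow_succ]; exact Ideal.mul_mem_mul h1 hbb
      · have : augI k G ^ (n + 1 + 1) = augI k G ^ n * augI k G ^ 2 := by rw [← pow_add]
        rw [this]; exact Ideal.mul_mem_mul ha h2
      · rw [pow_succ]; exact Ideal.mul_mem_mul h1 hb
    · intro a b ha hb
      have := add_mem ha hb
      convert this using 1
      rw [map_add]; ring

/-- the functional equation raises the order of vanishing by parity -/
lemma parity {G : Type} [CommGroup G] (h2 : IsUnit (2 : k)) (n : ℕ) (s : G) {x : MonoidAlgebra k G}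
    (hx : x ∈ augI k G ^ n)
    (hfe : iota k G x = (-1) ^ (n + 1) * (MonoidAlgebra.single s 1 * x)) :
    x ∈ augI k G ^ (n + 1) := by
  have h1 := iota_mem n x hx
  have h3 : (MonoidAlgebra.single s 1 - 1 : MonoidAlgebra k G) * x ∈ augI k G ^ (n + 1) := by
    rw [mul_comm, pow_succ]; exact Ideal.mul_mem_mul hx (sub_one_mem _)
  have h4 : (-1 : MonoidAlgebra k G) ^ (n + 1) * (2 * x) ∈ augI k G ^ (n + 1) := by
    have e : (-1 : MonoidAlgebra k G) ^ (n + 1) * (2 * x) = (iota k G x - (-1) ^ n * x) -
        (-1) ^ (n + 1) * ((MonoidAlgebra.single s 1 - 1) * x) := by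
      rw [hfe]; ring
    rw [e]
    exact sub_mem h1 (Ideal.mul_mem_left _ _ h3)
  have hu1 : IsUnit ((-1 : MonoidAlgebra k G) ^ (n + 1)) := (isUnit_one.neg).pow _
  have hu2 : IsUnit (2 : MonoidAlgebra k G) := by
    have := h2.map (algebraMap k (MonoidAlgebra k G))
    rwa [map_ofNat] at this
  exact (Ideal.unit_mul_mem_iff_mem _ hu2).1 ((Ideal.unit_mul_mem_iff_mem _ hu1).1 h4)

section core

variable {J : Type} [Fintype J] [DecidableEq J] {D : J → Type} [∀ j, CommGroup (D j)]

/-- restriction of the support to `T` -/
def eT (T : Finset J) : (∀ j, D j) →* (∀ j, D j) where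
  toFun g := fun j => if j ∈ T then g j else 1
  map_one' := by funext j; simp
  map_mul' := by intro g h; funext j; by_cases hj : j ∈ T <;> simp [hj]

lemma eT_eq (T : Finset J) (g : ∀ j, D j) : eT T g = ∏ j ∈ T, Pi.mulSingle j (g j) := by
  funext i
  rw [Finset.prod_apply]
  by_cases hi : i ∈ T
  · rw [Finset.prod_eq_single i]
    · simp [eT, hi]
    · intro j _ hj; simp [Pi.mulSingle_apply, hj.symm]
    · intro h; exact absurd hi h
  · rw [Finset.prod_eq_one]
    · simp [eT, hi]
    · intro j hj
      have : i ≠ j := fun h => hi (h ▸ hj)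
      simp [Pi.mulSingle_apply, this]

lemma core (K : ℕ) (x : MonoidAlgebra k (∀ j, D j))
    (h : ∀ T : Finset J, T.card < K → mp (eT T) x ∈ augI k (∀ j, D j) ^ K) :
    x ∈ augI k (∀ j, D j) ^ K := by
  classical
  -- the two identities
  have key : ∀ y : MonoidAlgebra k (∀ j, D j),
      (y = ∑ T ∈ (univ : Finset J).powerset, ∑ T' ∈ T.powerset,
        (-1 : MonoidAlgebra k (∀ j, D j)) ^ (T \ T').card * mp (eT T') y) ∧
      ∀ T : Finset J, ∑ T' ∈ T.powerset,
        (-1 : MonoidAlgebra k (∀ j, D j)) ^ (T \ T').card * mp (eT T') y ∈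
          augI k (∀ j, D j) ^ T.card := by
    intro y
    induction y using MonoidAlgebra.induction_linear with
    | zero => simp
    | add y z hy hz =>
      constructor
      · conv_lhs => rw [hy.1, hz.1]
        rw [← Finset.sum_add_distrib]
        refine Finset.sum_congr rfl fun T _ => ?_
        rw [← Finset.sum_add_distrib]
        refine Finset.sum_congr rfl fun T' _ => ?_
        rw [map_add, mul_add]
      · intro T
        have := add_mem (hy.2 T) (hz.2 T)
        rw [← Finset.sum_add_distrib] at this
        convert this using 1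
        refine Finset.sum_congr rfl fun T' _ => ?_
        rw [map_add, mul_add]
    | single g a =>
      let b : J → MonoidAlgebra k (∀ j, D j) := fun j =>
        MonoidAlgebra.single (Pi.mulSingle j (g j)) 1
      have hE : ∀ T : Finset J, mp (eT T) (MonoidAlgebra.single g a) =
          algebraMap k _ a * ∏ j ∈ T, b j := by
        intro T
        rw [mp_single, eT_eq]
        have : ∏ j ∈ T, b j = MonoidAlgebra.single (∏ j ∈ T, Pi.mulSingle j (g j)) 1 := by
          exact (map_prod (MonoidAlgebra.of k (∀ j, D j)) (fun j => Pi.mulSingle j (g j)) T).symm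
        rw [this]
        simp
      have hD : ∀ T : Finset J, ∑ T' ∈ T.powerset,
          (-1 : MonoidAlgebra k (∀ j, D j)) ^ (T \ T').card *
            mp (eT T') (MonoidAlgebra.single g a) = algebraMap k _ a * ∏ j ∈ T, (b j - 1) := by
        intro T
        simp_rw [sub_eq_add_neg]
        rw [Finset.prod_add, Finset.mul_sum]
        refine Finset.sum_congr rfl fun T' _ => ?_
        rw [hE, Finset.prod_const]
        ring
      constructor
      · simp_rw [hD]
        rw [← Finset.mul_sum]
        have h1 : ∑ T ∈ (univ : Finset J).powerset, ∏ j ∈ T, (b j - 1) = ∏ j : J, b j := by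
          have := Finset.prod_add (fun j => b j - 1) (fun _ => (1 : MonoidAlgebra k (∀ j, D j))) univ
          simp only [sub_add_cancel, Finset.prod_const_one, mul_one] at this
          rw [this]
        rw [h1, ← hE univ, mp_single]
        congr 1
        funext j
        simp [eT]
      · intro T
        rw [hD]
        exact Ideal.mul_mem_left _ _ (prod_mem_pow _ T _ fun j _ => sub_one_mem _)
  rw [(key x).1]
  refine sum_mem fun T _ => ?_
  by_cases hT : T.card < K
  · refine sum_mem fun T' hT' => Ideal.mul_mem_left _ _ (h T' ?_)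
    exact (Finset.card_le_card (Finset.mem_powerset.1 hT')).trans_lt hT
  · exact Ideal.pow_le_pow_right (not_lt.1 hT) ((key x).2 T)

end core

end Pool.Agent.TH727.MT
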