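import Pool.Agent.TH727.MT.Core

set_option autoImplicit false

namespace Pool.Agent.TH727.MT

open Finset

variable {ι : Type} [DecidableEq ι] {C : ι → Type} [∀ i, CommGroup (C i)]

/-- `G_m`, the product of the groups `C i`, `i ∈ m` -/
abbrev GG (C : ι → Type) (m : Finset ι) : Type := ∀ i : {i // i ∈ m}, C i.1

/-- the projection `G_m' → G_m`, `m ⊆ m'` -/
def res {m m' : Finset ι} (h : m ⊆ m') : GG C m' →* GG C m where
  toFun g := fun i => g ⟨i.1, h i.2⟩
  map_one' := rfl
  map_mul' := fun _ _ => rfl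

/-- extension by one, `G_m → G_m'` -/
def ext (C : ι → Type) [∀ i, CommGroup (C i)] (m m' : Finset ι) : GG C m →* GG C m' where
  toFun g := fun i => if h : i.1 ∈ m then g ⟨i.1, h⟩ else 1
  map_one' := by funext i; by_cases h : i.1 ∈ m <;> simp [h]
  map_mul' := by intro g g'; funext i; by_cases h : i.1 ∈ m <;> simp [h]

lemma ext_res {m : Finset ι} (T : Finset {i // i ∈ m}) (h : T.map (Function.Embedding.subtype _) ⊆ m) :
    (ext C (T.map (Function.Embedding.subtype _)) m).comp (res h) = eT T := by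
  refine MonoidHom.ext fun g => ?_
  funext i
  show (if h' : i.1 ∈ T.map (Function.Embedding.subtype _) then g ⟨i.1, _⟩ else 1) =
    if i ∈ T then g i else 1
  by_cases hi : i ∈ T
  · have : i.1 ∈ T.map (Function.Embedding.subtype _) := Finset.mem_map.2 ⟨i, hi, rfl⟩
    rw [dif_pos this, if_pos hi]
  · have : i.1 ∉ T.map (Function.Embedding.subtype _) := by
      intro h
      obtain ⟨j, hj, hji⟩ := Finset.mem_map.1 h
      have : j = i := Subtype.ext hji
      exact hi (this ▸ hj)
    rw [dif_neg this, if_neg hi]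

variable {k : Type} [CommRing k]

/-- norm relations: elements `θ m ∈ k[G_m]` such that the image of `θ (m ∪ {i})` in `k[G_m]` is
`u m i * θ m`, where `u m i` has the augmentation `c i` -/
structure NormSystem (k : Type) [CommRing k] (C : ι → Type) [∀ i, CommGroup (C i)] where
  θ : ∀ m : Finset ι, MonoidAlgebra k (GG C m)
  u : ∀ m : Finset ι, ι → MonoidAlgebra k (GG C m)
  c : ι → k
  unit : ∀ i, IsUnit (c i)
  aug_u : ∀ m i, i ∉ m → aug k (GG C m) (u m i) = c i
  norm : ∀ (m : Finset ι) (i : ι), i ∉ m →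
    mp (res (Finset.subset_insert i m)) (θ (insert i m)) = u m i * θ m

lemma res_comp {m m' m'' : Finset ι} (h : m ⊆ m') (h' : m' ⊆ m'') :
    (res (C := C) h).comp (res h') = res (h.trans h') := rfl

lemma norm_iter (S : NormSystem k C) : ∀ (N : ℕ) (m T : Finset ι) (h : T ⊆ m), (m \ T).card = N →
    ∃ U : MonoidAlgebra k (GG C T), aug k (GG C T) U = ∏ i ∈ m \ T, S.c i ∧
      mp (res h) (S.θ m) = U * S.θ T := by
  intro N
  induction N with
  | zero =>
    intro m T h hc
    have hmT : m = T := Finset.Subset.antisymm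
      (Finset.sdiff_eq_empty_iff_subset.1 (Finset.card_eq_zero.1 hc)) h
    subst hmT
    refine ⟨1, by simp, ?_⟩
    have : (res h : GG C m →* GG C m) = MonoidHom.id _ := rfl
    rw [this, mp_id, one_mul]
  | succ N ih =>
    intro m T h hc
    obtain ⟨j, hj⟩ : (m \ T).Nonempty := Finset.card_pos.1 (by omega)
    obtain ⟨m', hjm, rfl⟩ : ∃ m', j ∉ m' ∧ m = insert j m' :=
      ⟨m.erase j, Finset.notMem_erase j m, (Finset.insert_erase (Finset.mem_sdiff.1 hj).1).symm⟩
    have hjT : j ∉ T := (Finset.mem_sdiff.1 hj).2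
    have hT : T ⊆ m' := by
      intro i hi
      rcases Finset.mem_insert.1 (h hi) with h1 | h1
      · exact absurd (h1 ▸ hi) hjT
      · exact h1
    have hsd : insert j m' \ T = insert j (m' \ T) := Finset.insert_sdiff_of_notMem _ hjT
    have hjs : j ∉ m' \ T := fun h => hjm (Finset.mem_sdiff.1 h).1
    have hcard : (m' \ T).card = N := by
      rw [hsd, Finset.card_insert_of_notMem hjs] at hc
      omega
    obtain ⟨U, hU, hUθ⟩ := ih m' T hT hcard
    refine ⟨mp (res hT) (S.u m' j) * U, ?_, ?_⟩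
    · rw [map_mul, aug_mp, S.aug_u m' j hjm, hU, hsd, Finset.prod_insert hjs]
    · have : (res h : GG C (insert j m') →* GG C T) =
        (res hT).comp (res (Finset.subset_insert j m')) := rfl
      rw [this, ← mp_comp, S.norm m' j hjm, map_mul, hUθ, mul_assoc]

/-- the regulator: the determinant of the matrix of the elements `H a b - 1`, `H a b ∈ G_m` -/
noncomputable def reg (k : Type) [CommRing k] {r : ℕ} (H : Fin r → Fin r → ∀ i, C i) (m : Finset ι) :
    MonoidAlgebra k (GG C m) :=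
  Matrix.det (Matrix.of fun a b : Fin r =>
    (MonoidAlgebra.single (fun i : {i // i ∈ m} => H a b i.1) 1 - 1 : MonoidAlgebra k (GG C m)))

lemma reg_mem {r : ℕ} (H : Fin r → Fin r → ∀ i, C i) (m : Finset ι) :
    reg k H m ∈ augI k (GG C m) ^ r :=
  det_mem_pow _ _ fun _ _ => sub_one_mem _

lemma reg_res {r : ℕ} (H : Fin r → Fin r → ∀ i, C i) {m m' : Finset ι} (h : m ⊆ m') :
    mp (res h) (reg k H m') = reg k H m := by
  unfold reg
  rw [RingHom.map_det]
  congr 1
  ext a b
  simp only [RingHom.mapMatrix_apply, Matrix.map_apply, Matrix.of_apply, map_sub, map_one, mp_single]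
  rfl

/-- the leading term formula for `θ m` -/
def LT (S : NormSystem k C) {r : ℕ} (H : Fin r → Fin r → ∀ i, C i) (A : k) (m : Finset ι) : Prop :=
  S.θ m ∈ augI k (GG C m) ^ r ∧
    S.θ m - algebraMap k _ (A * ∏ i ∈ m, S.c i) * reg k H m ∈ augI k (GG C m) ^ (r + 1)

lemma algebraMap_mp {G G' : Type} [CommGroup G] [CommGroup G'] (f : G →* G') (a : k) :
    mp f (algebraMap k (MonoidAlgebra k G) a) = algebraMap k (MonoidAlgebra k G') a := by
  have e : ∀ (H : Type) [CommGroup H], algebraMap k (MonoidAlgebra k H) a = MonoidAlgebra.single 1 a := by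
    intro H _; rfl
  rw [e, e, mp_single, map_one]

lemma aug_algebraMap {G : Type} [CommGroup G] (a : k) :
    aug k G (algebraMap k (MonoidAlgebra k G) a) = a := by
  have e : algebraMap k (MonoidAlgebra k G) a = MonoidAlgebra.single 1 a := rfl
  rw [e, aug_single]

/-- order of vanishing from few primes -/
theorem order_of_few (S : NormSystem k C) (K : ℕ)
    (h : ∀ T : Finset ι, T.card < K → S.θ T ∈ augI k (GG C T) ^ K) (m : Finset ι) :
    S.θ m ∈ augI k (GG C m) ^ K := by
  classical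
  refine core K (S.θ m) fun T hT => ?_
  have hTm : T.map (Function.Embedding.subtype _) ⊆ m := by
    intro i hi
    obtain ⟨j, -, rfl⟩ := Finset.mem_map.1 hi
    exact j.2
  rw [← ext_res T hTm, ← mp_comp]
  apply mp_pow
  obtain ⟨U, -, hU⟩ := norm_iter S _ m _ hTm rfl
  rw [hU]
  exact Ideal.mul_mem_left _ _ (h _ (by rwa [Finset.card_map]))

/-- the leading term from few primes -/
theorem lt_of_few (S : NormSystem k C) {r : ℕ} (H : Fin r → Fin r → ∀ i, C i) (A : k)
    (h : ∀ T : Finset ι, T.card ≤ r → LT S H A T) (m : Finset ι) : LT S H A m := by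
  classical
  refine ⟨order_of_few S r (fun T hT => (h T hT.le).1) m, ?_⟩
  refine core (r + 1) _ fun T hT => ?_
  have hTm : T.map (Function.Embedding.subtype _) ⊆ m := by
    intro i hi
    obtain ⟨j, -, rfl⟩ := Finset.mem_map.1 hi
    exact j.2
  rw [← ext_res T hTm, ← mp_comp]
  apply mp_pow
  set T' := T.map (Function.Embedding.subtype _) with hT'
  obtain ⟨U, hUa, hU⟩ := norm_iter S _ m T' hTm rfl
  rw [map_sub, map_mul, hU, reg_res, algebraMap_mp]
  have hcard : T'.card ≤ r := by rw [hT', Finset.card_map]; omega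
  have h1 := (h T' hcard).2
  have hprod : (A * ∏ i ∈ m, S.c i) = (∏ i ∈ m \ T', S.c i) * (A * ∏ i ∈ T', S.c i) := by
    rw [← Finset.prod_sdiff hTm]; ring
  have e : U * S.θ T' - algebraMap k _ (A * ∏ i ∈ m, S.c i) * reg k H T' =
      U * (S.θ T' - algebraMap k _ (A * ∏ i ∈ T', S.c i) * reg k H T') +
      algebraMap k _ (A * ∏ i ∈ T', S.c i) *
        ((U - algebraMap k _ (∏ i ∈ m \ T', S.c i)) * reg k H T') := by
    rw [hprod, map_mul (algebraMap k _) (∏ i ∈ m \ T', S.c i)]
    ring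
  rw [e]
  refine add_mem (Ideal.mul_mem_left _ _ h1) (Ideal.mul_mem_left _ _ ?_)
  rw [pow_succ, mul_comm (U - _)]
  refine Ideal.mul_mem_mul (reg_mem H T') ?_
  show aug k _ _ = 0
  rw [map_sub, hUa, aug_algebraMap, sub_self]

lemma exists_super [Infinite ι] (T : Finset ι) {n : ℕ} (h : T.card ≤ n) :
    ∃ m : Finset ι, T ⊆ m ∧ m.card = n := Infinite.exists_superset_card_eq T n h

lemma U_unit (S : NormSystem k C) (m T : Finset ι) : IsUnit (algebraMap k (MonoidAlgebra k (GG C T))
    (∏ i ∈ m \ T, S.c i)) := by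
  refine IsUnit.map _ ?_
  exact Finset.prod_induction _ IsUnit (fun _ _ => IsUnit.mul) isUnit_one (fun i _ => S.unit i)

lemma order_down (S : NormSystem k C) (K : ℕ) {m T : Finset ι} (h : T ⊆ m)
    (hm : S.θ m ∈ augI k (GG C m) ^ K) : S.θ T ∈ augI k (GG C T) ^ K := by
  obtain ⟨U, hUa, hU⟩ := norm_iter S _ m T h rfl
  refine unit_cancel (augI k (GG C T)) (U_unit S m T) ?_ K ?_ (U := U)
  · show aug k _ _ = 0
    rw [map_sub, hUa, aug_algebraMap, sub_self]
  · rw [← hU]; exact mp_pow _ _ hm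

lemma lt_down (S : NormSystem k C) {r : ℕ} (H : Fin r → Fin r → ∀ i, C i) (A : k)
    {m T : Finset ι} (h : T ⊆ m) (hm : LT S H A m) : LT S H A T := by
  refine ⟨order_down S r h hm.1, ?_⟩
  obtain ⟨U, hUa, hU⟩ := norm_iter S _ m T h rfl
  have hUI : U - algebraMap k _ (∏ i ∈ m \ T, S.c i) ∈ augI k (GG C T) := by
    show aug k _ _ = 0
    rw [map_sub, hUa, aug_algebraMap, sub_self]
  refine unit_cancel (augI k (GG C T)) (U_unit S m T) hUI (r + 1) ?_
  have h1 := mp_pow (res h) (r + 1) hm.2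
  rw [map_sub, map_mul, hU, reg_res, algebraMap_mp] at h1
  have hprod : (A * ∏ i ∈ m, S.c i) = (∏ i ∈ m \ T, S.c i) * (A * ∏ i ∈ T, S.c i) := by
    rw [← Finset.prod_sdiff h]; ring
  have e : U * (S.θ T - algebraMap k _ (A * ∏ i ∈ T, S.c i) * reg k H T) =
      (U * S.θ T - algebraMap k _ (A * ∏ i ∈ m, S.c i) * reg k H T) -
      algebraMap k _ (A * ∏ i ∈ T, S.c i) *
        (reg k H T * (U - algebraMap k _ (∏ i ∈ m \ T, S.c i))) := by
    rw [hprod, map_mul (algebraMap k _) (∏ i ∈ m \ T, S.c i)]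
    ring
  rw [e]
  refine sub_mem h1 (Ideal.mul_mem_left _ _ ?_)
  rw [pow_succ]
  exact Ideal.mul_mem_mul (reg_mem H T) hUI

/-- the leading term formula for all `m` is equivalent to the one for `m` with exactly `r` primes -/
theorem lt_iff [Infinite ι] (S : NormSystem k C) {r : ℕ} (H : Fin r → Fin r → ∀ i, C i) (A : k) :
    (∀ m, LT S H A m) ↔ ∀ m : Finset ι, m.card = r → LT S H A m := by
  refine ⟨fun h m _ => h m, fun h m => lt_of_few S H A (fun T hT => ?_) m⟩
  obtain ⟨m', hTm, hm'⟩ := exists_super T hT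
  exact lt_down S H A hTm (h m' hm')

/-- the order of vanishing -/
theorem order_iff [Infinite ι] (S : NormSystem k C) (K : ℕ) :
    (∀ m, S.θ m ∈ augI k (GG C m) ^ (K + 1)) ↔
      ∀ m : Finset ι, m.card = K → S.θ m ∈ augI k (GG C m) ^ (K + 1) := by
  refine ⟨fun h m _ => h m, fun h m => order_of_few S (K + 1) (fun T hT => ?_) m⟩
  obtain ⟨m', hTm, hm'⟩ := exists_super T (Nat.lt_succ_iff.1 hT)
  exact order_down S (K + 1) hTm (h m' hm')

/-- the order of vanishing with the functional equation -/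
theorem order_iff_fe [Infinite ι] (h2 : IsUnit (2 : k)) (S : NormSystem k C) (K : ℕ)
    (s : ∀ m : Finset ι, GG C m)
    (hfe : ∀ m, iota k (GG C m) (S.θ m) = (-1) ^ K * (MonoidAlgebra.single (s m) 1 * S.θ m)) :
    (∀ m, S.θ m ∈ augI k (GG C m) ^ (K + 2)) ↔
      ∀ m : Finset ι, m.card = K → S.θ m ∈ augI k (GG C m) ^ (K + 2) := by
  refine ⟨fun h m _ => h m, fun h m => ?_⟩
  have h1 : ∀ m, S.θ m ∈ augI k (GG C m) ^ (K + 1) := (order_iff S K).2 fun m hm =>
    Ideal.pow_le_pow_right (by omega) (h m hm)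
  refine parity h2 (K + 1) (s m) (h1 m) ?_
  rw [hfe m]
  ring

end Pool.Agent.TH727.MT
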